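import Mathlib
import Pool.Agent.V11294.M2.Rat

/-!
# A congruence of Z.-W. Sun modulo `p ^ 2` for cubed central binomial coefficients
-/

namespace Pool.Agent.Results.MP_7db704_nt.SunCube

open Finset Pool.Agent.V11294.M2

/-- The Lucas-type sequence, used for the explicit values only. -/
def aa : ℕ → ℤ
  | 0 => 0
  | 1 => 1
  | n + 2 => 5 * aa (n + 1) - 8 * aa n

lemma eq_aa (a : ℕ → ℤ) (h0 : a 0 = 0) (h1 : a 1 = 1)
    (h2 : ∀ n, a (n + 2) = 5 * a (n + 1) - 8 * a n) (n : ℕ) : a n = aa n := by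
  induction n using Nat.strong_induction_on with
  | _ n ih =>
    rcases n with _ | _ | n
    · rw [h0]; rfl
    · rw [h1]; rfl
    · rw [h2, ih (n + 1) (by omega), ih n (by omega)]; rfl

lemma binet {R : Type*} [CommRing R] (w : R) (hw : w ^ 2 - w + 2 = 0) (n : ℕ) :
    (2 * w - 1) * (aa n : R) = (-w ^ 3) ^ n - (-(1 - w) ^ 3) ^ n := by
  induction n using Nat.strong_induction_on with
  | _ n ih =>
    rcases n with _ | _ | n
    · simp [aa]
    · simp only [aa]
      push_cast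
      linear_combination (2 * w - 1) * hw
    · have e : aa (n + 2) = 5 * aa (n + 1) - 8 * aa n := rfl
      rw [e]
      push_cast
      have i1 := ih (n + 1) (by omega)
      have i0 := ih n (by omega)
      have q1 : (-w ^ 3) ^ 2 = 5 * (-w ^ 3) - 8 := by
        linear_combination (w ^ 4 + w ^ 3 - w ^ 2 + 2 * w + 4) * hw
      have q2 : (-(1 - w) ^ 3) ^ 2 = 5 * (-(1 - w) ^ 3) - 8 := by
        have hw' : (1 - w) ^ 2 - (1 - w) + 2 = 0 := by linear_combination hw
        linear_combination ((1 - w) ^ 4 + (1 - w) ^ 3 - (1 - w) ^ 2 + 2 * (1 - w) + 4) * hw'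
      rw [pow_add (-w ^ 3) n 2, pow_add (-(1 - w) ^ 3) n 2, q1, q2]
      linear_combination 5 * i1 - 8 * i0

lemma term {R : Type*} [CommRing R] (t w : R) (ht : 2 * t = 1) (hw : w ^ 2 - w + 2 = 0) (k : ℕ) :
    (2 * w - 1) * ((aa (4 * k) : R) * ((-1) ^ k * t ^ (12 * k))) =
      (-(w * t) ^ 12) ^ k - (-((1 - w) * t) ^ 12) ^ k := by
  have h := binet w hw (4 * k)
  have hv : w * ((1 - w) * t) = 1 := by linear_combination ht - t * hw
  have e1 : t ^ (12 * k) = ((w * t) ^ 12) ^ k * (((1 - w) * t) ^ 12) ^ k := by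
    rw [← mul_pow, ← mul_pow, mul_comm 12 k, pow_mul']
    congr 2
    linear_combination (-t) * hv
  have e2 : (-w ^ 3) ^ (4 * k) * (((1 - w) * t) ^ 12) ^ k = 1 := by
    rw [pow_mul, ← mul_pow]
    have : (-w ^ 3) ^ 4 * ((1 - w) * t) ^ 12 = (w * ((1 - w) * t)) ^ 12 := by ring
    rw [this, hv, one_pow, one_pow]
  have e3 : (-(1 - w) ^ 3) ^ (4 * k) * ((w * t) ^ 12) ^ k = 1 := by
    rw [pow_mul, ← mul_pow]
    have : (-(1 - w) ^ 3) ^ 4 * (w * t) ^ 12 = (w * ((1 - w) * t)) ^ 12 := by ring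
    rw [this, hv, one_pow, one_pow]
  have e4 : ∀ x : R, (-x) ^ k = (-1) ^ k * x ^ k := fun x => neg_pow x k
  rw [e4 ((w * t) ^ 12), e4 (((1 - w) * t) ^ 12), e1]
  linear_combination ((-1) ^ k * (((w * t) ^ 12) ^ k * (((1 - w) * t) ^ 12) ^ k)) * h
    + (-1) ^ k * ((w * t) ^ 12) ^ k * e2 - (-1) ^ k * (((1 - w) * t) ^ 12) ^ k * e3

theorem sum_zero (p n : ℕ) (hp : p.Prime) (hpn : p = 2 * n + 1) (h7 : p ≠ 7) :
    ∑ k ∈ range p, ff (RR p) k * ((aa (4 * k) : RR p) * ((-1) ^ k * tt p ^ (12 * k))) = 0 := by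
  have hx := ctx_RR p n hp hpn
  have ht := hx.ht
  have hw := om_eq p
  have hw' : (1 - om p) ^ 2 - (1 - om p) + 2 = 0 := by linear_combination hw
  have hv : om p * ((1 - om p) * tt p) = 1 := by linear_combination ht - tt p * hw
  have hv' : (1 - om p) * (om p * tt p) = 1 := by linear_combination hv
  rw [sum_range_p p n hp hpn]
  have hu := isUnit_y p n hp hpn h7 _ hw
  apply (hu.mul_right_eq_zero).1
  rw [mul_sum]
  have e : ∀ k ∈ range (n + 1), (2 * om p - 1) * (ff (RR p) k * ((aa (4 * k) : RR p) *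
      ((-1) ^ k * tt p ^ (12 * k)))) = ff (RR p) k * (-(om p * tt p) ^ 12) ^ k -
      ff (RR p) k * (-((1 - om p) * tt p) ^ 12) ^ k := by
    intro k _
    have := term (tt p) (om p) ht hw k
    linear_combination ff (RR p) k * this
  rw [sum_congr rfl e, sum_sub_distrib, F_v_eq p n hp hpn h7 _ _ hw' hv',
    F_v_eq p n hp hpn h7 _ _ hw hv, sub_self]

/-- Sun's congruence: for every odd prime `p`,
`∑_{k<p} a(4k) C(2k,k)^3 / (-4096)^k ≡ 0 (mod p^2)`. -/
theorem result (a : ℕ → ℤ) (h0 : a 0 = 0) (h1 : a 1 = 1)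
    (h2 : ∀ n, a (n + 2) = 5 * a (n + 1) - 8 * a n) (p : ℕ) (hp : p.Prime) (hodd : p ≠ 2) :
    (p : ℤ) ^ 2 ∣ (∑ k ∈ range p,
      (a (4 * k) : ℚ) * ((2 * k).choose k : ℚ) ^ 3 / (-4096 : ℚ) ^ k).num := by
  have ha : ∀ m, a m = aa m := eq_aa a h0 h1 h2
  simp only [ha]
  obtain ⟨n, hn⟩ : Odd p := hp.odd_of_ne_two hodd
  by_cases h7 : p = 7
  · subst h7
    norm_num [sum_range_succ, Nat.choose, aa]
  · have hs := sum_zero p n hp hn h7
    refine num_dvd_sq p (4096 ^ (p - 1)) _ (∑ k ∈ range p, aa (4 * k) *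
      ((2 * k).choose k : ℤ) ^ 3 * ((-1) ^ k * 4096 ^ (p - 1 - k))) ?_ ?_ ?_
    · push_cast
      rw [mul_sum]
      refine sum_congr rfl fun k hk => ?_
      have hk' : k ≤ p - 1 := by have := mem_range.1 hk; omega
      have e1 : (4096 : ℚ) ^ (p - 1) = 4096 ^ (p - 1 - k) * 4096 ^ k := by
        rw [← pow_add]; congr 1; omega
      have e2 : (-4096 : ℚ) ^ k = (-1) ^ k * 4096 ^ k := by
        rw [← mul_pow]; norm_num
      have e3 : ((-1 : ℚ)) ^ k * (-1) ^ k = 1 := by rw [← mul_pow]; norm_num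
      have e4 : ((-1 : ℚ)) ^ k ≠ 0 := pow_ne_zero _ (by norm_num)
      rw [e1, e2]
      field_simp
      linear_combination (-(aa (4 * k) : ℚ) * ((2 * k).choose k : ℚ) ^ 3) * e3
    · apply Nat.Coprime.pow_right
      have : (4096 : ℕ) = 2 ^ 12 := by norm_num
      rw [this]
      apply Nat.Coprime.pow_right
      exact (Nat.coprime_primes hp Nat.prime_two).2 hodd
    · apply intCast_RR_eq_zero
      push_cast
      have ht := (ctx_RR p n hp hn).ht
      have h4096 : (4096 : RR p) * tt p ^ 12 = 1 := by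
        have : (4096 : RR p) * tt p ^ 12 = (2 * tt p) ^ 12 := by
          rw [mul_pow]; norm_num
        rw [this, ht, one_pow]
      have e : ∀ k ∈ range p, (aa (4 * k) : RR p) * (((2 * k).choose k : ℕ) : RR p) ^ 3 *
          ((-1) ^ k * 4096 ^ (p - 1 - k)) = 4096 ^ (p - 1) * (ff (RR p) k *
          ((aa (4 * k) : RR p) * ((-1) ^ k * tt p ^ (12 * k)))) := by
        intro k hk
        have hk' : k ≤ p - 1 := by have := mem_range.1 hk; omega
        have e1 : (4096 : RR p) ^ (p - 1) = 4096 ^ (p - 1 - k) * 4096 ^ k := by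
          rw [← pow_add]; congr 1; omega
        have e5 : (4096 : RR p) ^ k * tt p ^ (12 * k) = 1 := by
          rw [pow_mul, ← mul_pow, h4096, one_pow]
        unfold ff cb
        rw [Nat.centralBinom_eq_two_mul_choose, e1]
        linear_combination (-((aa (4 * k) : RR p) * (((2 * k).choose k : ℕ) : RR p) ^ 3 *
          ((-1) ^ k * 4096 ^ (p - 1 - k)))) * e5
      rw [sum_congr rfl e, ← mul_sum, hs, mul_zero]

end Pool.Agent.Results.MP_7db704_nt.SunCube
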